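import Mathlib
import Pool.Agent.R285.TNExt

/-!
# Totally nonnegative kernels are limits of totally positive kernels
-/

set_option autoImplicit false

namespace Pool.Agent.Results.MP_c12a31_an.TPApproximation

open Filter Topology Pool.Agent.R285.TNExt

/-- totally nonnegative kernels -/
def IsTN {X Y : Set ℝ} (K : X → Y → ℝ) : Prop :=
  ∀ (n : ℕ) (x : Fin n → X) (y : Fin n → Y), StrictMono x → StrictMono y →
    0 ≤ (Matrix.of fun i j => K (x i) (y j)).det

/-- totally positive kernels -/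
def IsTP {X Y : Set ℝ} (K : X → Y → ℝ) : Prop :=
  ∀ (n : ℕ) (x : Fin n → X) (y : Fin n → Y), StrictMono x → StrictMono y →
    0 < (Matrix.of fun i j => K (x i) (y j)).det

/-- Gaussian weights -/
noncomputable def E (N x s : ℝ) : ℝ := Real.exp (N * (x * s - s ^ 2 / 2))

lemma E_pos (N x s : ℝ) : 0 < E N x s := Real.exp_pos _

lemma E_far {N x s s₀ ρ : ℝ} (hN : 0 ≤ N) (hs : ρ ≤ |s - x|) (hρ : 0 < ρ)
    (h0 : |s₀ - x| ≤ ρ / 2) : E N x s ≤ Real.exp (-(3 / 8 * ρ ^ 2 * N)) * E N x s₀ := by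
  unfold E
  rw [← Real.exp_add]
  refine Real.exp_le_exp.2 ?_
  have h1 : ρ ^ 2 ≤ (s - x) ^ 2 := by
    rw [← sq_abs (s - x)]
    exact pow_le_pow_left₀ hρ.le hs 2
  have h2 : (s₀ - x) ^ 2 ≤ (ρ / 2) ^ 2 := by
    rw [← sq_abs (s₀ - x)]
    exact pow_le_pow_left₀ (abs_nonneg _) h0 2
  nlinarith

section Data

variable {X : Set ℝ} (S : Finset X) (N : ℝ)

/-- normalisation -/
noncomputable def Z (x : ℝ) : ℝ := ∑ s ∈ S, E N x s

lemma Z_pos (hS : S.Nonempty) (x : ℝ) : 0 < Z S N x :=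
  Finset.sum_pos (fun _ _ => E_pos _ _ _) hS

open Classical in
lemma far_sum {N x ρ : ℝ} (hN : 0 ≤ N) (hρ : 0 < ρ) (s₀ : X) (hs₀ : s₀ ∈ S)
    (h0 : |(s₀ : ℝ) - x| ≤ ρ / 2) :
    ∑ s ∈ S, (if ρ ≤ |(s : ℝ) - x| then E N x s else 0) ≤
      S.card * Real.exp (-(3 / 8 * ρ ^ 2 * N)) * Z S N x := by
  have h1 : ∀ s ∈ S, (if ρ ≤ |(s : ℝ) - x| then E N x s else 0) ≤
      Real.exp (-(3 / 8 * ρ ^ 2 * N)) * Z S N x := by
    intro s _
    have h2 : E N x s₀ ≤ Z S N x :=
      Finset.single_le_sum (f := fun s : X => E N x s) (fun _ _ => (E_pos _ _ _).le) hs₀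
    split_ifs with h
    · exact (E_far hN h hρ h0).trans (mul_le_mul_of_nonneg_left h2 (Real.exp_pos _).le)
    · exact mul_nonneg (Real.exp_pos _).le (Finset.sum_nonneg fun _ _ => (E_pos _ _ _).le)
  calc _ ≤ ∑ s ∈ S, Real.exp (-(3 / 8 * ρ ^ 2 * N)) * Z S N x := Finset.sum_le_sum h1
    _ = _ := by rw [Finset.sum_const, nsmul_eq_mul]; ring

end Data

variable {X Y : Set ℝ} (K : X → Y → ℝ)

/-- the size of the kernel on a grid -/
noncomputable def B (S : Finset X) (T : Finset Y) : ℝ := ∑ s ∈ S, ∑ t ∈ T, |K s t|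

/-- smoothing of the kernel from a grid -/
noncomputable def smooth (S : Finset X) (T : Finset Y) (N x y : ℝ) : ℝ :=
  ∑ s ∈ S, ∑ t ∈ T, E N x s * K s t * E N y t

open Classical in
lemma smooth_close {S : Finset X} {T : Finset Y} {N x y ρ ε κ : ℝ} (hN : 0 ≤ N) (hρ : 0 < ρ)
    (hε : 0 ≤ ε) (s₀ : X) (hs₀ : s₀ ∈ S) (h0 : |(s₀ : ℝ) - x| ≤ ρ / 2) (t₀ : Y) (ht₀ : t₀ ∈ T)
    (h0' : |(t₀ : ℝ) - y| ≤ ρ / 2)
    (hK : ∀ s ∈ S, ∀ t ∈ T, |(s : ℝ) - x| < ρ → |(t : ℝ) - y| < ρ → |K s t - κ| ≤ ε) :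
    |smooth K S T N x y - κ * (Z S N x * Z T N y)| ≤
      (ε + (B K S T + |κ|) * (S.card + T.card) * Real.exp (-(3 / 8 * ρ ^ 2 * N))) *
        (Z S N x * Z T N y) := by
  set D := B K S T + |κ| with hD
  have hD0 : 0 ≤ D := add_nonneg (Finset.sum_nonneg fun _ _ => Finset.sum_nonneg fun _ _ =>
    abs_nonneg _) (abs_nonneg _)
  have hKD : ∀ s ∈ S, ∀ t ∈ T, |K s t - κ| ≤ D := by
    intro s hs t ht
    have h1 : |K s t| ≤ B K S T := by
      refine le_trans ?_ (Finset.single_le_sum (f := fun s => ∑ t ∈ T, |K s t|)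
        (fun _ _ => Finset.sum_nonneg fun _ _ => abs_nonneg _) hs)
      exact Finset.single_le_sum (f := fun t => |K s t|) (fun _ _ => abs_nonneg _) ht
    exact (abs_sub _ _).trans (by linarith)
  have hterm : ∀ s ∈ S, ∀ t ∈ T, |K s t - κ| ≤ ε + (if ρ ≤ |(s : ℝ) - x| then D else 0) +
      (if ρ ≤ |(t : ℝ) - y| then D else 0) := by
    intro s hs t ht
    by_cases h1 : ρ ≤ |(s : ℝ) - x|
    · rw [if_pos h1]
      have := hKD s hs t ht
      have h2 : 0 ≤ (if ρ ≤ |(t : ℝ) - y| then D else 0) := by split_ifs <;> simp [hD0]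
      linarith
    · by_cases h2 : ρ ≤ |(t : ℝ) - y|
      · rw [if_neg h1, if_pos h2]
        have := hKD s hs t ht
        linarith
      · rw [if_neg h1, if_neg h2]
        have := hK s hs t ht (not_le.1 h1) (not_le.1 h2)
        linarith
  have e1 : smooth K S T N x y - κ * (Z S N x * Z T N y) =
      ∑ s ∈ S, ∑ t ∈ T, E N x s * (K s t - κ) * E N y t := by
    have h1 : κ * (Z S N x * Z T N y) = ∑ s ∈ S, ∑ t ∈ T, E N x s * κ * E N y t := by
      unfold Z
      rw [Finset.sum_mul_sum, Finset.mul_sum]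
      refine Finset.sum_congr rfl fun s _ => ?_
      rw [Finset.mul_sum]
      exact Finset.sum_congr rfl fun t _ => by ring
    rw [h1, smooth, ← Finset.sum_sub_distrib]
    refine Finset.sum_congr rfl fun s _ => ?_
    rw [← Finset.sum_sub_distrib]
    exact Finset.sum_congr rfl fun t _ => by ring
  rw [e1]
  have h2 : |∑ s ∈ S, ∑ t ∈ T, E N x s * (K s t - κ) * E N y t| ≤
      ∑ s ∈ S, ∑ t ∈ T, E N x s * (ε + (if ρ ≤ |(s : ℝ) - x| then D else 0) +
        (if ρ ≤ |(t : ℝ) - y| then D else 0)) * E N y t := by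
    refine (Finset.abs_sum_le_sum_abs _ _).trans (Finset.sum_le_sum fun s hs => ?_)
    refine (Finset.abs_sum_le_sum_abs _ _).trans (Finset.sum_le_sum fun t ht => ?_)
    rw [abs_mul, abs_mul, abs_of_pos (E_pos _ _ _), abs_of_pos (E_pos _ _ _)]
    exact mul_le_mul_of_nonneg_right (mul_le_mul_of_nonneg_left (hterm s hs t ht)
      (E_pos _ _ _).le) (E_pos _ _ _).le
  have h3 : ∑ s ∈ S, ∑ t ∈ T, E N x s * (ε + (if ρ ≤ |(s : ℝ) - x| then D else 0) +
        (if ρ ≤ |(t : ℝ) - y| then D else 0)) * E N y t =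
      ε * (Z S N x * Z T N y) +
      D * ((∑ s ∈ S, (if ρ ≤ |(s : ℝ) - x| then E N x s else 0)) * Z T N y) +
      D * (Z S N x * ∑ t ∈ T, (if ρ ≤ |(t : ℝ) - y| then E N y t else 0)) := by
    unfold Z
    rw [Finset.sum_mul_sum, Finset.sum_mul_sum, Finset.sum_mul_sum, Finset.mul_sum,
      Finset.mul_sum, Finset.mul_sum, ← Finset.sum_add_distrib, ← Finset.sum_add_distrib]
    refine Finset.sum_congr rfl fun s _ => ?_
    rw [Finset.mul_sum, Finset.mul_sum, Finset.mul_sum, ← Finset.sum_add_distrib,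
      ← Finset.sum_add_distrib]
    refine Finset.sum_congr rfl fun t _ => ?_
    split_ifs <;> ring
  have hZ1 : 0 ≤ Z S N x := Finset.sum_nonneg fun _ _ => (E_pos _ _ _).le
  have hZ2 : 0 ≤ Z T N y := Finset.sum_nonneg fun _ _ => (E_pos _ _ _).le
  have h4 := far_sum S hN hρ s₀ hs₀ h0
  have h5 := far_sum T hN hρ t₀ ht₀ h0'
  calc _ ≤ _ := h2
    _ = _ := h3
    _ ≤ ε * (Z S N x * Z T N y) +
      D * ((S.card * Real.exp (-(3 / 8 * ρ ^ 2 * N)) * Z S N x) * Z T N y) +
      D * (Z S N x * (T.card * Real.exp (-(3 / 8 * ρ ^ 2 * N)) * Z T N y)) := by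
        have a1 := mul_le_mul_of_nonneg_left (mul_le_mul_of_nonneg_right h4 hZ2) hD0
        have a2 := mul_le_mul_of_nonneg_left (mul_le_mul_of_nonneg_left h5 hZ1) hD0
        linarith
    _ = _ := by ring

/-- the exponents of the grid -/
noncomputable def al (S : Finset X) (N : ℝ) (i : Fin S.card) : ℝ :=
  N * (S.orderEmbOfFin rfl i : X)

/-- the coefficient matrix of the grid -/
noncomputable def Cm (S : Finset X) (T : Finset Y) (N : ℝ) :
    Matrix (Fin S.card) (Fin T.card) ℝ :=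
  Matrix.of fun i j => Real.exp (-(N * ((S.orderEmbOfFin rfl i : X) : ℝ) ^ 2 / 2)) *
    K (S.orderEmbOfFin rfl i) (T.orderEmbOfFin rfl j) *
    Real.exp (-(N * ((T.orderEmbOfFin rfl j : Y) : ℝ) ^ 2 / 2))

variable {K}

lemma Cm_TN (hK : IsTN K) (S : Finset X) (T : Finset Y) (N : ℝ) : TNmat (Cm K S T N) := by
  intro n f g hf hg
  have e : (Cm K S T N).submatrix f g = Matrix.of fun a b =>
      Real.exp (-(N * ((S.orderEmbOfFin rfl (f a) : X) : ℝ) ^ 2 / 2)) *
      (Matrix.of fun a b => Real.exp (-(N * ((T.orderEmbOfFin rfl (g b) : Y) : ℝ) ^ 2 / 2)) *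
        (Matrix.of fun a b => K (S.orderEmbOfFin rfl (f a)) (T.orderEmbOfFin rfl (g b)) :
          Matrix (Fin n) (Fin n) ℝ) a b : Matrix (Fin n) (Fin n) ℝ) a b := by
    ext a b
    simp only [Matrix.submatrix_apply, Cm, Matrix.of_apply]
    ring
  rw [e, Matrix.det_mul_column, Matrix.det_mul_row]
  refine mul_nonneg (Finset.prod_nonneg fun _ _ => (Real.exp_pos _).le)
    (mul_nonneg (Finset.prod_nonneg fun _ _ => (Real.exp_pos _).le) ?_)
  exact hK n _ _ ((S.orderEmbOfFin rfl).strictMono.comp hf) ((T.orderEmbOfFin rfl).strictMono.comp hg)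

lemma al_strictMono (S : Finset X) {N : ℝ} (hN : 0 < N) : StrictMono (al S N) := by
  intro i j hij
  have h : (S.orderEmbOfFin rfl i : X) < S.orderEmbOfFin rfl j :=
    (S.orderEmbOfFin rfl).strictMono hij
  have h' : ((S.orderEmbOfFin rfl i : X) : ℝ) < ((S.orderEmbOfFin rfl j : X) : ℝ) := h
  exact mul_lt_mul_of_pos_left h' hN

lemma sum_grid (S : Finset X) (F : X → ℝ) :
    ∑ i, F (S.orderEmbOfFin rfl i) = ∑ s ∈ S, F s := by
  conv_rhs => rw [← Finset.map_orderEmbOfFin_univ S rfl]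
  rw [Finset.sum_map]
  rfl

lemma ker_eq (S : Finset X) (T : Finset Y) (N x y : ℝ) :
    Pool.Agent.R285.TNExt.ker (al S N) (al T N) (Cm K S T N) x y = smooth K S T N x y := by
  unfold Pool.Agent.R285.TNExt.ker smooth
  rw [← sum_grid S]
  refine Finset.sum_congr rfl fun i _ => ?_
  rw [← sum_grid T]
  refine Finset.sum_congr rfl fun j _ => ?_
  simp only [al, Cm, Matrix.of_apply, E]
  set s := ((S.orderEmbOfFin rfl i : X) : ℝ)
  set t := ((T.orderEmbOfFin rfl j : Y) : ℝ)
  have e1 : N * (x * s - s ^ 2 / 2) = x * (N * s) + -(N * s ^ 2 / 2) := by ring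
  have e2 : N * (y * t - t ^ 2 / 2) = y * (N * t) + -(N * t ^ 2 / 2) := by ring
  rw [e1, e2, Real.exp_add, Real.exp_add]
  ring

/-- the exponent shift -/
noncomputable def Rsh (S : Finset X) (T : Finset Y) (N : ℝ) : ℝ :=
  (∑ i, |al S N i|) + (∑ j, |al T N j|) + 1

lemma al_lt (S : Finset X) (T : Finset Y) (N : ℝ) (i : Fin S.card) : al S N i < Rsh S T N := by
  have h1 : |al S N i| ≤ ∑ i, |al S N i| :=
    Finset.single_le_sum (f := fun i => |al S N i|) (fun _ _ => abs_nonneg _) (Finset.mem_univ i)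
  have h2 : 0 ≤ ∑ j, |al T N j| := Finset.sum_nonneg fun _ _ => abs_nonneg _
  have h3 := le_abs_self (al S N i)
  unfold Rsh
  linarith

lemma al_lt' (S : Finset X) (T : Finset Y) (N : ℝ) (j : Fin T.card) : al T N j < Rsh S T N := by
  have h1 : |al T N j| ≤ ∑ j, |al T N j| :=
    Finset.single_le_sum (f := fun j => |al T N j|) (fun _ _ => abs_nonneg _) (Finset.mem_univ j)
  have h2 : 0 ≤ ∑ i, |al S N i| := Finset.sum_nonneg fun _ _ => abs_nonneg _
  have h3 := le_abs_self (al T N j)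
  unfold Rsh
  linarith

lemma Rsh_nonneg (S : Finset X) (T : Finset Y) (N : ℝ) : 0 ≤ Rsh S T N := by
  have h1 : 0 ≤ ∑ i, |al S N i| := Finset.sum_nonneg fun _ _ => abs_nonneg _
  have h2 : 0 ≤ ∑ j, |al T N j| := Finset.sum_nonneg fun _ _ => abs_nonneg _
  unfold Rsh
  linarith

variable (K)

/-- the approximating kernel attached to a grid -/
noncomputable def app (S : Finset X) (T : Finset Y) (N δ : ℝ) (x : X) (y : Y) : ℝ :=
  (smooth K S T N x y + δ * Real.exp (Rsh S T N * ((x : ℝ) + y)) *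
    Real.exp (Real.exp ((x : ℝ) + y))) / (Z S N x * Z T N y)

variable {K}

lemma app_TP (hK : IsTN K) {S : Finset X} {T : Finset Y} (hS : S.Nonempty) (hT : T.Nonempty)
    {N δ : ℝ} (hN : 0 < N) (hδ : 0 < δ) : IsTP (app K S T N δ) := by
  intro n x y hx hy
  have h := det_pos (Cm_TN hK S T N) (al_strictMono S hN) (al_strictMono T hN) hδ
    (al_lt S T N) (al_lt' S T N) (fun a => (x a : ℝ)) (fun b => (y b : ℝ)) hx hy
  have e : (Matrix.of fun i j => app K S T N δ (x i) (y j)) = Matrix.of fun a b =>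
      (Z S N (x a))⁻¹ * (Matrix.of fun a b => (Z T N (y b))⁻¹ *
        (Matrix.of fun a b => Pool.Agent.R285.TNExt.ker (al S N) (al T N) (Cm K S T N) (x a) (y b) +
          δ * Real.exp (Rsh S T N * ((x a : ℝ) + y b)) * Real.exp (Real.exp ((x a : ℝ) + y b)) :
          Matrix (Fin n) (Fin n) ℝ) a b : Matrix (Fin n) (Fin n) ℝ) a b := by
    ext a b
    simp only [Matrix.of_apply, app, ker_eq]
    rw [div_eq_mul_inv, mul_inv]
    ring
  rw [e, Matrix.det_mul_column, Matrix.det_mul_row]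
  refine mul_pos (Finset.prod_pos fun a _ => inv_pos.2 (Z_pos S N hS _))
    (mul_pos (Finset.prod_pos fun b _ => inv_pos.2 (Z_pos T N hT _)) h)

lemma Z_lower {S : Finset X} {N x : ℝ} (hN : 0 ≤ N) (s : X) (hs : s ∈ S) :
    Real.exp (-(N * (|x| * |(s : ℝ)| + (s : ℝ) ^ 2))) ≤ Z S N x := by
  refine le_trans ?_ (Finset.single_le_sum (f := fun s : X => E N x s)
    (fun _ _ => (E_pos _ _ _).le) hs)
  unfold E
  refine Real.exp_le_exp.2 ?_
  have h1 : -(|x| * |(s : ℝ)|) ≤ x * s := by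
    rw [← abs_mul]; exact neg_abs_le _
  have h2 := sq_nonneg (s : ℝ)
  have h3 : -(|x| * |(s : ℝ)| + (s : ℝ) ^ 2) ≤ x * s - (s : ℝ) ^ 2 / 2 := by linarith
  have := mul_le_mul_of_nonneg_left h3 hN
  linarith

/-- Every totally nonnegative kernel is a limit of totally positive kernels at all its points of
continuity. -/
theorem result (X Y : Set ℝ) (K : X → Y → ℝ) (hK : IsTN K) :
    ∃ Km : ℕ → X → Y → ℝ, (∀ m, IsTP (Km m)) ∧
      ∀ (x : X) (y : Y), ContinuousAt (fun p : X × Y => K p.1 p.2) (x, y) →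
        Tendsto (fun m => Km m x y) atTop (𝓝 (K x y)) := by
  classical
  by_cases hXe : Nonempty X
  swap
  · refine ⟨fun _ _ _ => 0, fun m n x y _ _ => ?_, fun x => absurd ⟨x⟩ hXe⟩
    cases n with
    | zero => simp
    | succ n => exact absurd ⟨x 0⟩ hXe
  by_cases hYe : Nonempty Y
  swap
  · refine ⟨fun _ _ _ => 0, fun m n x y _ _ => ?_, fun x y => absurd ⟨y⟩ hYe⟩
    cases n with
    | zero => simp
    | succ n => exact absurd ⟨y 0⟩ hYe
  obtain ⟨u, hu⟩ := TopologicalSpace.exists_dense_seq X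
  obtain ⟨v, hv⟩ := TopologicalSpace.exists_dense_seq Y
  set S : ℕ → Finset X := fun m => (Finset.range (m + 1)).image u with hS
  set T : ℕ → Finset Y := fun m => (Finset.range (m + 1)).image v with hT
  set N : ℕ → ℝ := fun m => (m + 1) * (1 + B K (S m) (T m)) with hN
  set δ : ℕ → ℝ := fun m => Real.exp (-(m * (1 + Rsh (S m) (T m) (N m) + N m))) with hδ
  have hB : ∀ m, 0 ≤ B K (S m) (T m) := fun m =>
    Finset.sum_nonneg fun _ _ => Finset.sum_nonneg fun _ _ => abs_nonneg _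
  have hNge : ∀ m : ℕ, (m : ℝ) + 1 ≤ N m := by
    intro m
    have := hB m
    simp only [hN]
    nlinarith
  have hNpos : ∀ m : ℕ, 0 < N m := fun m => by
    have := hNge m
    have h2 : (0 : ℝ) ≤ m := Nat.cast_nonneg m
    linarith
  have hSmem : ∀ m i, i ≤ m → u i ∈ S m := fun m i hi =>
    Finset.mem_image.2 ⟨i, Finset.mem_range.2 (by omega), rfl⟩
  have hTmem : ∀ m i, i ≤ m → v i ∈ T m := fun m i hi =>
    Finset.mem_image.2 ⟨i, Finset.mem_range.2 (by omega), rfl⟩
  have hScard : ∀ m, ((S m).card : ℝ) ≤ m + 1 := by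
    intro m
    have : (S m).card ≤ m + 1 := by
      refine Finset.card_image_le.trans ?_
      rw [Finset.card_range]
    exact_mod_cast this
  have hTcard : ∀ m, ((T m).card : ℝ) ≤ m + 1 := by
    intro m
    have : (T m).card ≤ m + 1 := by
      refine Finset.card_image_le.trans ?_
      rw [Finset.card_range]
    exact_mod_cast this
  refine ⟨fun m => app K (S m) (T m) (N m) (δ m), fun m => app_TP hK ⟨_, hSmem m 0 (by omega)⟩
    ⟨_, hTmem m 0 (by omega)⟩ (hNpos m) (Real.exp_pos _), fun x y hc => ?_⟩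
  have hNtop : Tendsto N atTop atTop := by
    refine tendsto_atTop_mono hNge ?_
    exact tendsto_atTop_add_const_right _ _ tendsto_natCast_atTop_atTop
  -- the two parts
  have hsplit : ∀ m, app K (S m) (T m) (N m) (δ m) x y =
      smooth K (S m) (T m) (N m) x y / (Z (S m) (N m) x * Z (T m) (N m) y) +
      δ m * Real.exp (Rsh (S m) (T m) (N m) * ((x : ℝ) + y)) *
        Real.exp (Real.exp ((x : ℝ) + y)) / (Z (S m) (N m) x * Z (T m) (N m) y) := by
    intro m
    rw [app, add_div]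
  simp only [hsplit]
  rw [← add_zero (K x y)]
  refine Tendsto.add ?_ ?_
  · -- smoothing
    rw [Metric.tendsto_atTop]
    intro ε hε
    rw [Metric.continuousAt_iff] at hc
    obtain ⟨ρ, hρ, hρK⟩ := hc (ε / 2) (by positivity)
    obtain ⟨i₁, hi₁⟩ := hu.exists_dist_lt x (show 0 < ρ / 2 by positivity)
    obtain ⟨i₂, hi₂⟩ := hv.exists_dist_lt y (show 0 < ρ / 2 by positivity)
    -- the error term
    have herr : Tendsto (fun m => 2 * (1 + |K x y|) * (N m * Real.exp (-(3 / 8 * ρ ^ 2 * N m))))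
        atTop (𝓝 0) := by
      have h1 : Tendsto (fun t : ℝ => t * Real.exp (-(3 / 8 * ρ ^ 2 * t))) atTop (𝓝 0) := by
        have h2 := Real.tendsto_pow_mul_exp_neg_atTop_nhds_zero 1
        have h3 : Tendsto (fun t : ℝ => 3 / 8 * ρ ^ 2 * t) atTop atTop :=
          Tendsto.const_mul_atTop (by positivity) tendsto_id
        have h4 := (h2.comp h3).const_mul ((3 / 8 * ρ ^ 2)⁻¹)
        rw [mul_zero] at h4
        refine h4.congr fun t => ?_
        simp only [Function.comp_apply, pow_one]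
        field_simp
      have h5 := (h1.comp hNtop).const_mul (2 * (1 + |K x y|))
      rw [mul_zero] at h5
      exact h5
    rw [Metric.tendsto_atTop] at herr
    obtain ⟨m₀, hm₀⟩ := herr (ε / 2) (by positivity)
    refine ⟨max m₀ (max i₁ i₂), fun m hm => ?_⟩
    have hm1 : m₀ ≤ m := le_trans (le_max_left _ _) hm
    have hm2 : i₁ ≤ m := le_trans (le_trans (le_max_left _ _) (le_max_right _ _)) hm
    have hm3 : i₂ ≤ m := le_trans (le_trans (le_max_right _ _) (le_max_right _ _)) hm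
    have hZ1 := Z_pos (S m) (N m) ⟨_, hSmem m 0 (by omega)⟩ x
    have hZ2 := Z_pos (T m) (N m) ⟨_, hTmem m 0 (by omega)⟩ y
    have hd1 : |((u i₁ : X) : ℝ) - x| ≤ ρ / 2 := by
      have := hi₁.le
      rw [dist_comm, Subtype.dist_eq, Real.dist_eq] at this
      exact this
    have hd2 : |((v i₂ : Y) : ℝ) - y| ≤ ρ / 2 := by
      have := hi₂.le
      rw [dist_comm, Subtype.dist_eq, Real.dist_eq] at this
      exact this
    have h1 := smooth_close K (S := S m) (T := T m) (N := N m) (x := x) (y := y) (ρ := ρ)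
      (ε := ε / 2) (κ := K x y) (hNpos m).le hρ (by positivity) (u i₁) (hSmem m i₁ hm2) hd1
      (v i₂) (hTmem m i₂ hm3) hd2 (fun s _ t _ hs ht => by
        have h2 : dist (s, t) (x, y) < ρ := by
          rw [Prod.dist_eq]
          refine max_lt ?_ ?_
          · rw [Subtype.dist_eq, Real.dist_eq]; exact hs
          · rw [Subtype.dist_eq, Real.dist_eq]; exact ht
        have h3 := (hρK h2).le
        rw [Real.dist_eq] at h3
        exact h3)
    have h2 := hm₀ m hm1
    rw [Real.dist_eq, sub_zero, abs_of_nonneg (by have := hNpos m; positivity)] at h2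
    have h3 : (B K (S m) (T m) + |K x y|) * ((S m).card + (T m).card) *
        Real.exp (-(3 / 8 * ρ ^ 2 * N m)) ≤
        2 * (1 + |K x y|) * (N m * Real.exp (-(3 / 8 * ρ ^ 2 * N m))) := by
      have h4 : (B K (S m) (T m) + |K x y|) * ((S m).card + (T m).card) ≤
          2 * (1 + |K x y|) * N m := by
        have a1 := hScard m
        have a2 := hTcard m
        have a3 := hB m
        have a4 := abs_nonneg (K x y)
        have a5 : (0 : ℝ) ≤ (m : ℝ) + 1 := by positivity
        calc (B K (S m) (T m) + |K x y|) * ((S m).card + (T m).card)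
            ≤ ((1 + |K x y|) * (1 + B K (S m) (T m))) * (2 * (m + 1)) := by
              refine mul_le_mul ?_ (by linarith) (by positivity) (by positivity)
              nlinarith
          _ = 2 * (1 + |K x y|) * N m := by simp only [hN]; ring
      calc _ ≤ 2 * (1 + |K x y|) * N m * Real.exp (-(3 / 8 * ρ ^ 2 * N m)) :=
            mul_le_mul_of_nonneg_right h4 (Real.exp_pos _).le
        _ = _ := by ring
    rw [Real.dist_eq]
    have hZZ : 0 < Z (S m) (N m) x * Z (T m) (N m) y := mul_pos hZ1 hZ2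
    have e1 : smooth K (S m) (T m) (N m) x y / (Z (S m) (N m) x * Z (T m) (N m) y) - K x y =
        (smooth K (S m) (T m) (N m) x y - K x y * (Z (S m) (N m) x * Z (T m) (N m) y)) /
          (Z (S m) (N m) x * Z (T m) (N m) y) := by
      field_simp
    rw [e1, abs_div, abs_of_pos hZZ, div_lt_iff₀ hZZ]
    refine h1.trans_lt ?_
    exact mul_lt_mul_of_pos_right (by linarith) hZZ
  · -- the perturbation
    set a1 : ℝ := |(x : ℝ)| * |(u 0 : ℝ)| + (u 0 : ℝ) ^ 2 with ha1
    set a2 : ℝ := |(y : ℝ)| * |(v 0 : ℝ)| + (v 0 : ℝ) ^ 2 with ha2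
    set κ : ℝ := |(x : ℝ) + y| + Real.exp ((x : ℝ) + y) + a1 + a2 with hκ
    have ha1' : 0 ≤ a1 := by positivity
    have ha2' : 0 ≤ a2 := by positivity
    have hbound : ∀ᶠ m : ℕ in atTop, δ m * Real.exp (Rsh (S m) (T m) (N m) * ((x : ℝ) + y)) *
        Real.exp (Real.exp ((x : ℝ) + y)) / (Z (S m) (N m) x * Z (T m) (N m) y) ≤
        Real.exp (κ - m) := by
      filter_upwards [eventually_ge_atTop ⌈κ⌉₊] with m hm
      have hm' : κ ≤ m := (Nat.le_ceil κ).trans (by exact_mod_cast hm)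
      have hZ1 := Z_lower (S := S m) (N := N m) (x := x) (hNpos m).le (u 0)
        (hSmem m 0 (by omega))
      have hZ2 := Z_lower (S := T m) (N := N m) (x := y) (hNpos m).le (v 0)
        (hTmem m 0 (by omega))
      have hR := Rsh_nonneg (S m) (T m) (N m)
      have hNm := hNpos m
      set R := Rsh (S m) (T m) (N m)
      have hZZ : Real.exp (-(N m * a1)) * Real.exp (-(N m * a2)) ≤
          Z (S m) (N m) x * Z (T m) (N m) y :=
        mul_le_mul hZ1 hZ2 (Real.exp_pos _).le ((Real.exp_pos _).le.trans hZ1)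
      have hZZ0 : 0 < Real.exp (-(N m * a1)) * Real.exp (-(N m * a2)) := by positivity
      calc _ ≤ δ m * Real.exp (R * ((x : ℝ) + y)) * Real.exp (Real.exp ((x : ℝ) + y)) /
            (Real.exp (-(N m * a1)) * Real.exp (-(N m * a2))) :=
            div_le_div_of_nonneg_left (by positivity) hZZ0 hZZ
        _ = Real.exp (-(m * (1 + R + N m)) + R * ((x : ℝ) + y) + Real.exp ((x : ℝ) + y) +
              N m * a1 + N m * a2) := by
            have hδm : δ m = Real.exp (-(m * (1 + R + N m))) := rfl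
            rw [Real.exp_neg (N m * a1), Real.exp_neg (N m * a2), hδm]
            simp only [Real.exp_add]
            field_simp
        _ ≤ Real.exp (κ - m) := by
            refine Real.exp_le_exp.2 ?_
            have b1 : R * ((x : ℝ) + y) ≤ R * |(x : ℝ) + y| :=
              mul_le_mul_of_nonneg_left (le_abs_self _) hR
            have b2 : 0 ≤ |(x : ℝ) + y| := abs_nonneg _
            have b3 : 0 < Real.exp ((x : ℝ) + y) := Real.exp_pos _
            have b4 : R * |(x : ℝ) + y| + Real.exp ((x : ℝ) + y) + N m * a1 + N m * a2 ≤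
                κ * (1 + R + N m) := by
              rw [hκ]
              nlinarith [mul_nonneg hR b3.le, mul_nonneg hR ha1', mul_nonneg hR ha2',
                mul_nonneg hNm.le b2, mul_nonneg hNm.le b3.le]
            have b5 : (κ - m) * (1 + R + N m) ≤ (κ - m) * 1 :=
              mul_le_mul_of_nonpos_left (by linarith) (by linarith)
            linarith
    have hlim : Tendsto (fun m : ℕ => Real.exp (κ - m)) atTop (𝓝 0) := by
      refine Real.tendsto_exp_atBot.comp ?_
      have h1 : Tendsto (fun m : ℕ => -(m : ℝ)) atTop atBot :=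
        tendsto_neg_atTop_atBot.comp tendsto_natCast_atTop_atTop
      simpa [sub_eq_add_neg] using tendsto_atBot_add_const_left _ κ h1
    refine squeeze_zero' (Eventually.of_forall fun m => ?_) hbound hlim
    have hZ1 := Z_pos (S m) (N m) ⟨_, hSmem m 0 (by omega)⟩ x
    have hZ2 := Z_pos (T m) (N m) ⟨_, hTmem m 0 (by omega)⟩ y
    have : 0 < δ m := Real.exp_pos _
    positivity

end Pool.Agent.Results.MP_c12a31_an.TPApproximation
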